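import Mathlib

namespace Pool.Agent.Results.MP_be8152_al.NoOperator

variable {k V : Type*} [Field k] [AddCommGroup V] [Module k V]

/-- 4-algebras: commutative bilinear products with `(x²)² = 0`. -/
def IsFourAlgebra (m : V →ₗ[k] V →ₗ[k] V) : Prop :=
  (∀ x y, m x y = m y x) ∧ ∀ x, m (m x x) (m x x) = 0

/-- Bernstein operators. -/
def IsBernsteinOp (m : V →ₗ[k] V →ₗ[k] V) (Ω : V →ₗ[k] V) : Prop :=
  Ω ∘ₗ Ω = Ω ∧ ∀ x, m (m x x) (Ω x) = 0 ∧ m (Ω x) (Ω x) + Ω (m x x) = m x x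

/-- the product -/
def pr (x y : Fin 7 → k) : Fin 7 → k :=
  ![0, 0, x 0 * y 0, x 0 * y 1 + x 1 * y 0, x 1 * y 1, -2 * (x 2 * y 4 + x 4 * y 2) + x 3 * y 3,
    x 0 * y 2 + x 2 * y 0]

theorem result (k : Type*) [Field k] (h2 : (2 : k) ≠ 0) :
    ∃ m : (Fin 7 → k) →ₗ[k] (Fin 7 → k) →ₗ[k] (Fin 7 → k),
      IsFourAlgebra m ∧ ¬ ∃ Ω, IsBernsteinOp m Ω := by
  refine ⟨LinearMap.mk₂ k pr ?_ ?_ ?_ ?_, ⟨fun x y => ?_, fun x => ?_⟩, ?_⟩
  iterate 4 (intros; ext i; fin_cases i <;> simp [pr] <;> ring)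
  · ext i; fin_cases i <;> simp [pr] <;> ring
  · ext i; fin_cases i <;> simp [pr]; ring
  · rintro ⟨Ω, -, h⟩
    have h1 := congrFun (h (Pi.single 0 1)).1 6
    have h3 := congrFun (h (Pi.single 0 1)).2 2
    have h4 := congrFun (h (Pi.single 1 1)).1 5
    have h5 := congrFun (h (Pi.single 1 1 + Pi.single 2 1)).1 5
    have e : pr (Pi.single 0 1) (Pi.single 0 1) = (Pi.single 2 1 : Fin 7 → k) := by
      ext i; fin_cases i <;> simp [pr]
    simp only [LinearMap.mk₂_apply] at h1 h3 h4 h5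
    rw [e] at h1 h3
    rw [map_add] at h5
    simp [pr, h2] at h1 h3 h4 h5
    simp [h1, h4] at h3 h5
    exact one_ne_zero (h3.symm.trans h5)

end Pool.Agent.Results.MP_be8152_al.NoOperator
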